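import Pool.Agent.CT9.CertPoly

/-!
# The certificate in the form used by the transplantation
-/

namespace CT96

variable {t : ℝ}

lemma cR_pos (h0 : 0 ≤ t) : 0 < cR t := by unfold cR; positivity
lemma cJ1_pos (h0 : 0 ≤ t) : 0 < cJ1 t := by unfold cJ1; positivity
lemma cS_pos (h0 : 0 ≤ t) (h1 : t ≤ 1) : 0 < cS t := by unfold cS; nlinarith
lemma cJ2_pos : 0 < cJ2 t := by unfold cJ2; positivity
lemma cg_pos (h1 : t ≤ 1) : 0 < cg t := by unfold cg; nlinarith [sq_nonneg t]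
lemma cH_pos (h0 : 0 ≤ t) (h1 : t ≤ 1) : 0 < cH t := by unfold cH; nlinarith

lemma cert1 (h0 : 0 ≤ t) (h1 : t ≤ 1) :
    cg t * cJ1 t / cR t + t * cH t * cJ2 t / cS t ≤ 121 / 80 := by
  have a := cR_pos h0
  have b := cS_pos h0 h1
  have h := pos_c1 h0 h1
  rw [div_add_div _ _ a.ne' b.ne', div_le_iff₀ (by positivity)]
  linarith

lemma cert2 (h0 : 0 ≤ t) (h1 : t ≤ 1) :
    cg t ^ 2 * cJ1 t + cH t ^ 2 * cJ2 t ≤ 122 / 125 := by
  have h := pos_c2 h0 h1
  linarith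

lemma cert3 (h0 : 0 ≤ t) (h1 : t ≤ 1) :
    6193 / 10000 ≤ cg t ^ 3 * cJ1 t + t * cH t ^ 3 * cJ2 t := by
  have h := pos_c3 h0 h1
  linarith

/-- kinetic coefficient -/
noncomputable def certP (t : ℝ) : ℝ :=
  121 / 80 - cR t * cg t / cJ1 t - t * cS t * cH t / cJ2 t
/-- potential coefficient -/
noncomputable def certN (t : ℝ) : ℝ :=
  2 * cZ1 t - t * (cR t / cJ1 t) * cg' t ^ 2 / cg t - (cS t / cJ2 t) * cH1 t ^ 2 / cH t
/-- cross coefficient -/
noncomputable def certM (t : ℝ) : ℝ :=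
  (cR t / cJ1 t) * cg' t + (cS t / cJ2 t) * cH1 t

lemma certP_eq (h0 : 0 ≤ t) : certP t * (cJ1 t * cJ2 t) =
    121 / 80 * (cJ1 t * cJ2 t) - (cR t * cg t * cJ2 t + t * cS t * cH t * cJ1 t) := by
  have a := cJ1_pos h0
  have b := cJ2_pos (t := t)
  unfold certP
  field_simp
  ring

lemma certN_eq (h0 : 0 ≤ t) (h1 : t ≤ 1) : certN t * (cJ1 t * cJ2 t * (cg t * cH t)) =
    2 * cZ1 t * (cJ1 t * cJ2 t * (cg t * cH t)) -
      (t * cR t * cJ2 t * cg' t ^ 2 * cH t + cS t * cJ1 t * cH1 t ^ 2 * cg t) := by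
  have a := cJ1_pos h0
  have b := cJ2_pos (t := t)
  have c := cg_pos h1
  have d := cH_pos h0 h1
  unfold certN
  field_simp
  ring

lemma certM_eq (h0 : 0 ≤ t) : (certM t - cz t) * (cJ1 t * cJ2 t) =
    (cR t * cJ2 t * cg' t + cS t * cJ1 t * cH1 t) - cz t * (cJ1 t * cJ2 t) := by
  have a := cJ1_pos h0
  have b := cJ2_pos (t := t)
  unfold certM
  field_simp

lemma certP_nonneg (h0 : 0 ≤ t) (h1 : t ≤ 1) : 0 ≤ certP t := by
  have h := pos_P h0 h1
  rw [← certP_eq h0] at h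
  have a := cJ1_pos h0
  have b := cJ2_pos (t := t)
  exact nonneg_of_mul_nonneg_left h (by positivity)

lemma certN_nonneg (h0 : 0 ≤ t) (h1 : t ≤ 1) : 0 ≤ certN t := by
  have h := pos_N h0 h1
  rw [← certN_eq h0 h1] at h
  have a := cJ1_pos h0
  have b := cJ2_pos (t := t)
  have c := cg_pos h1
  have d := cH_pos h0 h1
  exact nonneg_of_mul_nonneg_left h (by positivity)

lemma cert4 (h0 : 0 ≤ t) (h1 : t ≤ 1) : t * (certM t - cz t) ^ 2 ≤ certP t * certN t := by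
  have h := pos_c4 h0 h1
  rw [← certN_eq h0 h1, ← certP_eq h0, ← certM_eq h0] at h
  have a := cJ1_pos h0
  have b := cJ2_pos (t := t)
  have c := cg_pos h1
  have d := cH_pos h0 h1
  have e : 0 < (cJ1 t * cJ2 t) ^ 2 * (cg t * cH t) := by positivity
  have h' : 0 ≤ (certP t * certN t - t * (certM t - cz t) ^ 2) *
      ((cJ1 t * cJ2 t) ^ 2 * (cg t * cH t)) := by
    have : (certP t * certN t - t * (certM t - cz t) ^ 2) *
      ((cJ1 t * cJ2 t) ^ 2 * (cg t * cH t)) = certP t * (cJ1 t * cJ2 t) *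
        (certN t * (cJ1 t * cJ2 t * (cg t * cH t))) -
        t * ((certM t - cz t) * (cJ1 t * cJ2 t)) ^ 2 * (cg t * cH t) := by ring
    rw [this]; exact h
  have := nonneg_of_mul_nonneg_left h' e
  linarith

end CT96
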