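import Pool.Agent.CT.Lower
import Pool.Agent.CT96.Targets

/-!
# The inequality on the disc times a long circle
-/

namespace Pool.Agent.CT

open MeasureTheory Metric Set Filter Topology Real
open scoped ContDiff

lemma contD {f : ℝ → ℝ × ℝ → ℝ} (hf : Continuous (Function.uncurry f)) :
    Continuous fun p => ∫ x in D, f p x := by
  have h := continuous_parametric_integral_of_continuous (μ := volume.restrict D) hf isCompact_Dc
  have h2 : ((volume : Measure (ℝ × ℝ)).restrict D).restrict Dc = volume.restrict D := by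
    rw [Measure.restrict_restrict (isCompact_Dc.isClosed.measurableSet),
      inter_eq_right.2 D_subset]
  simpa only [h2] using h

lemma intD {f : ℝ × ℝ → ℝ} (hf : Continuous f) : IntegrableOn f D :=
  (hf.continuousOn.integrableOn_compact isCompact_Dc).mono_set D_subset

/-- swapping the integrals over the disc and over an interval -/
lemma swapD {f : (ℝ × ℝ) × ℝ → ℝ} (hf : Continuous f) {a b : ℝ} (hab : a ≤ b) :
    ∫ x in D, ∫ p in a..b, f (x, p) = ∫ p in a..b, ∫ x in D, f (x, p) := by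
  rw [intervalIntegral.integral_of_le hab]
  simp only [intervalIntegral.integral_of_le hab]
  rw [integral_integral_swap]
  have h1 : IntegrableOn f (D ×ˢ Ioc a b) (volume.prod volume) :=
    (hf.continuousOn.integrableOn_compact (isCompact_Dc.prod isCompact_Icc)).mono_set
      (prod_mono D_subset Ioc_subset_Icc_self)
  rw [IntegrableOn, ← Measure.prod_restrict] at h1
  exact h1

lemma young {a m : ℝ} (ha : 0 ≤ a) (hm : 0 < m) : a ^ 2 ≤ 2 / 3 * (a ^ 3 / m) + 1 / 3 * m ^ 2 := by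
  have h : 0 ≤ (a - m) ^ 2 * (2 * a + m) := by positivity
  have h2 : 2 / 3 * (a ^ 3 / m) + 1 / 3 * m ^ 2 - a ^ 2 = (a - m) ^ 2 * (2 * a + m) / (3 * m) := by
    field_simp
    ring
  have h3 : 0 ≤ (a - m) ^ 2 * (2 * a + m) / (3 * m) := by positivity
  linarith

lemma area_D : ∫ _x in D, (1 : ℝ) = π := by
  have hpi := pi_pos
  rw [polar_D]
  have h := setIntegral_prod_mul (μ := (volume : Measure ℝ)) (ν := (volume : Measure ℝ))
    (fun r : ℝ => r) (fun _ : ℝ => (1 : ℝ)) (Ioo (0 : ℝ) 1) (Ioo (-π) π)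
  rw [← Measure.volume_eq_prod] at h
  rw [h, ← integral_Ioc_eq_integral_Ioo, ← integral_Ioc_eq_integral_Ioo,
    ← intervalIntegral.integral_of_le (by norm_num : (0 : ℝ) ≤ 1),
    ← intervalIntegral.integral_of_le (by linarith : -π ≤ π)]
  simp
  ring

/-- Core estimate, with a transport of truncation `R`. -/
lemma cyl_core {V : (ℝ × ℝ) × ℝ → ℝ} (hV : ContDiff ℝ 1 V)
    (hper : ∀ x p, V (x, p + 2 * π) = V (x, p)) (h0 : ∀ q, 0 ≤ V q) {C : ℝ} (hC : 0 < C)
    (hdisc : ∀ p : ℝ, C * (∫ x in D, V (x, p) ^ 6) ≤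
      (8 * (∫ x in D, (dA V (x, p) ^ 2 + dB V (x, p) ^ 2)) +
        2 * ∫ th in (-π)..π, V ((cos th, sin th), p) ^ 2) * ∫ x in D, V (x, p) ^ 4)
    {l lam R m0 m1 : ℝ} (hl : 0 < l) (hlam : 0 < lam) (hR : 0 < R) (hm0 : 0 < m0)
    (hN : 0 < ∫ p in (-π)..π, ∫ x in D, V (x, p) ^ 6)
    (htr : ∀ (b : ℝ → ℝ) (p q : ℝ), Continuous b → (∀ y, 0 ≤ b y) → p ≤ q →
        (0 < ∫ y in p..q, b y) →
        ∃ T : ℝ → ℝ, Continuous T ∧ (∀ y ∈ Icc p q, |T y| ≤ R) ∧
          (∀ y ∈ Icc p q, HasDerivAt T (m0 * (b y / ((∫ y in p..q, b y) *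
            (2 / π / (1 + T y ^ 2) ^ 2)))) y) ∧
          T p = -R ∧ T q = R ∧
          ∫ y in p..q, b y * T y ^ 2 = (∫ y in p..q, b y) * m1) :
    2 * √(lam * m0 * C * (∫ p in (-π)..π, ∫ x in D, V (x, p) ^ 6) * (π / 2)) * (1 + m1) -
      lam ^ 2 * l ^ 2 / 2 * (∫ p in (-π)..π, ∫ x in D, V (x, p) ^ 6) * m1 -
      2 * R * lam * ((2 + 2 * π ^ 2) / (6 * π) *
        (∫ p in (-π)..π, ∫ x in D, V (x, p) ^ 6) ^ (2 / 3 : ℝ)) ≤
    ∫ p in (-π)..π, ((8 * (∫ x in D, (dA V (x, p) ^ 2 + dB V (x, p) ^ 2)) +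
        2 * ∫ th in (-π)..π, V ((cos th, sin th), p) ^ 2) +
        8 / l ^ 2 * ∫ x in D, dT V (x, p) ^ 2) := by
  have hpi := pi_pos
  have hpile : -π ≤ π := by linarith
  have hVc : Continuous V := hV.continuous
  have hfd : Continuous (fderiv ℝ V) := hV.continuous_fderiv (by norm_num)
  have hA : Continuous (dA V) := hfd.clm_apply continuous_const
  have hB : Continuous (dB V) := hfd.clm_apply continuous_const
  have hT : Continuous (dT V) := hfd.clm_apply continuous_const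
  set E : ℝ → ℝ := fun p => 8 * (∫ x in D, (dA V (x, p) ^ 2 + dB V (x, p) ^ 2)) +
        2 * ∫ th in (-π)..π, V ((cos th, sin th), p) ^ 2 with hE
  set α : ℝ → ℝ := fun p => ∫ x in D, V (x, p) ^ 4 with hα
  set β : ℝ → ℝ := fun p => ∫ x in D, V (x, p) ^ 6 with hβ
  set γ : ℝ → ℝ := fun p => ∫ x in D, dT V (x, p) ^ 2 with hγ
  set N : ℝ := ∫ p in (-π)..π, β p with hNdef
  have hcα : Continuous α := contD (f := fun p x => V (x, p) ^ 4) (by
    simp only [Function.uncurry_def]; fun_prop)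
  have hcβ : Continuous β := contD (f := fun p x => V (x, p) ^ 6) (by
    simp only [Function.uncurry_def]; fun_prop)
  have hcγ : Continuous γ := contD (f := fun p x => dT V (x, p) ^ 2) (by
    simp only [Function.uncurry_def]; fun_prop)
  have hcE : Continuous E := by
    refine (Continuous.const_mul ?_ 8).add (Continuous.const_mul ?_ 2)
    · exact contD (f := fun p x => dA V (x, p) ^ 2 + dB V (x, p) ^ 2) (by
        simp only [Function.uncurry_def]; fun_prop)
    · apply intervalIntegral.continuous_parametric_intervalIntegral_of_continuous'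
      simp only [Function.uncurry_def]
      fun_prop
  have hα0 : ∀ p, 0 ≤ α p := fun p => integral_nonneg fun x => by positivity
  have hβ0 : ∀ p, 0 ≤ β p := fun p => integral_nonneg fun x => by
    have := h0 (x, p); positivity
  have hE0 : ∀ p, 0 ≤ E p := fun p => by
    have h1 : 0 ≤ ∫ x in D, (dA V (x, p) ^ 2 + dB V (x, p) ^ 2) :=
      integral_nonneg fun x => by positivity
    have h2 : 0 ≤ ∫ th in (-π)..π, V ((cos th, sin th), p) ^ 2 :=
      intervalIntegral.integral_nonneg hpile fun x _ => by positivity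
    simp only [hE]; positivity
  -- periodicity
  have hder : ∀ q : (ℝ × ℝ) × ℝ, ∀ v, fderiv ℝ V (q + ((0, 0), 2 * π)) v = fderiv ℝ V q v := by
    intro q v
    have h1 : (fun y => V (y + ((0, 0), 2 * π))) = V := by
      ext y
      have : y + ((0, 0), 2 * π) = (y.1, y.2 + 2 * π) := by
        ext <;> simp
      rw [this, hper]
    have h2 := fderiv_comp_add_right (𝕜 := ℝ) (f := V) (x := q) (((0 : ℝ), (0 : ℝ)), 2 * π)
    rw [h1] at h2
    rw [h2]
  have hshift : ∀ (x : ℝ × ℝ) (p : ℝ), (x, p + 2 * π) = (x, p) + (((0 : ℝ), (0 : ℝ)), 2 * π) := by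
    intro x p; ext <;> simp
  have pA : ∀ x p, dA V (x, p + 2 * π) = dA V (x, p) := fun x p => by
    rw [dA, hshift, hder]; rfl
  have pB : ∀ x p, dB V (x, p + 2 * π) = dB V (x, p) := fun x p => by
    rw [dB, hshift, hder]; rfl
  have pT : ∀ x p, dT V (x, p + 2 * π) = dT V (x, p) := fun x p => by
    rw [dT, hshift, hder]; rfl
  have perβ : Function.Periodic β (2 * π) := fun p => by simp only [hβ, hper]
  have perα : Function.Periodic α (2 * π) := fun p => by simp only [hα, hper]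
  have perG : Function.Periodic (fun p => E p + 8 / l ^ 2 * γ p) (2 * π) := fun p => by
    simp only [hE, hγ, hper, pA, pB, pT]
  -- the cut point
  obtain ⟨p0, hp0, hmin⟩ := (isCompact_Icc (a := -π) (b := π)).exists_isMinOn
    (nonempty_Icc.2 hpile) hcα.continuousOn
  have hshiftI : ∀ f : ℝ → ℝ, Function.Periodic f (2 * π) →
      ∫ p in p0..(p0 + 2 * π), f p = ∫ p in (-π)..π, f p := by
    intro f hf
    have := hf.intervalIntegral_add_eq p0 (-π)
    rw [this]
    congr 1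
    ring
  have hple : p0 ≤ p0 + 2 * π := by linarith
  have hαcut : α p0 ≤ (2 + 2 * π ^ 2) / (6 * π) * N ^ (2 / 3 : ℝ) := by
    set m : ℝ := N ^ (1 / 3 : ℝ) with hm
    have hmpos : 0 < m := Real.rpow_pos_of_pos hN _
    have hm2 : N ^ (2 / 3 : ℝ) = m ^ 2 := by
      rw [hm, ← Real.rpow_natCast, ← Real.rpow_mul hN.le]
      norm_num
    have hm3 : N = m ^ 3 := by
      rw [hm, ← Real.rpow_natCast, ← Real.rpow_mul hN.le]
      norm_num
    have k1 : ∀ p, α p ≤ 2 / 3 * (β p / m) + 1 / 3 * m ^ 2 * π := by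
      intro p
      have e1 : α p ≤ ∫ x in D, (2 / 3 / m * V (x, p) ^ 6 + 1 / 3 * m ^ 2 * 1) := by
        refine setIntegral_mono (intD (by fun_prop)) (intD (by fun_prop)) fun x => ?_
        have := young (a := V (x, p) ^ 2) (by positivity) hmpos
        calc V (x, p) ^ 4 = (V (x, p) ^ 2) ^ 2 := by ring
          _ ≤ _ := this
          _ = _ := by field_simp
      rw [integral_add (intD (by fun_prop)) (intD (by fun_prop)), integral_const_mul,
        integral_const_mul, area_D] at e1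
      refine e1.trans (le_of_eq ?_)
      simp only [hβ]
      field_simp
    have k2 : ∫ p in (-π)..π, α p0 ≤ ∫ p in (-π)..π, (2 / 3 * (β p / m) + 1 / 3 * m ^ 2 * π) := by
      refine intervalIntegral.integral_mono_on hpile (by simp) ?_ fun p hp => (hmin hp).trans (k1 p)
      exact Continuous.intervalIntegrable (by fun_prop) _ _
    rw [intervalIntegral.integral_add (Continuous.intervalIntegrable (by fun_prop) _ _)
      (by simp), intervalIntegral.integral_const_mul, intervalIntegral.integral_div,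
      ← hNdef, intervalIntegral.integral_const, intervalIntegral.integral_const] at k2
    simp only [smul_eq_mul] at k2
    rw [hm2]
    have k3 : N / m = m ^ 2 := by rw [hm3]; field_simp
    rw [k3] at k2
    have k4 : (2 + 2 * π ^ 2) / (6 * π) * m ^ 2 =
        (2 / 3 * m ^ 2 + (π - -π) * (1 / 3 * m ^ 2 * π)) / (π - -π) := by
      field_simp
      ring
    rw [k4, le_div_iff₀ (by linarith)]
    linarith
  obtain ⟨T, hTc, hTR, hTd, hTp, hTq, hTm⟩ := htr β p0 (p0 + 2 * π) hcβ hβ0 hple (by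
    rw [hshiftI β perβ]; exact hN)
  simp only [hshiftI β perβ, ← hNdef] at hTm hTd
  set T' : ℝ → ℝ := fun y => m0 * (β y / (N * (2 / π / (1 + T y ^ 2) ^ 2))) with hT'
  have hT'c : Continuous T' := by
    refine continuous_const.mul (hcβ.div ?_ fun y => ?_)
    · exact continuous_const.mul (continuous_const.div (by fun_prop) fun y => by positivity)
    · have : 0 < N := hN
      positivity
  -- integration by parts
  have hibp : ∫ p in p0..(p0 + 2 * π), α p * T' p =
      2 * R * α p0 - ∫ p in p0..(p0 + 2 * π), T p * (4 * ∫ x in D, V (x, p) ^ 3 * dT V (x, p)) := by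
    have h1 : ∀ x : ℝ × ℝ, ∫ p in p0..(p0 + 2 * π),
        (V (x, p) ^ 4 * T' p + 4 * V (x, p) ^ 3 * dT V (x, p) * T p) =
        2 * R * V (x, p0) ^ 4 := by
      intro x
      have hd : ∀ p ∈ uIcc p0 (p0 + 2 * π), HasDerivAt (fun p => V (x, p) ^ 4 * T p)
          (V (x, p) ^ 4 * T' p + 4 * V (x, p) ^ 3 * dT V (x, p) * T p) p := by
        intro p hp
        rw [uIcc_of_le hple] at hp
        have d1 : HasDerivAt (fun p : ℝ => (x, p)) ((0, 1) : (ℝ × ℝ) × ℝ) p :=
          (hasDerivAt_const p x).prodMk (hasDerivAt_id p)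
        have d2 : HasDerivAt (fun p : ℝ => V (x, p)) (dT V (x, p)) p :=
          ((hV.differentiable (by norm_num)) (x, p)).hasFDerivAt.comp_hasDerivAt p d1
        refine ((d2.pow 4).mul (hTd p hp)).congr_deriv ?_
        simp only [hT', Pi.pow_apply]
        push_cast
        ring
      rw [intervalIntegral.integral_eq_sub_of_hasDerivAt hd
        (Continuous.intervalIntegrable (by fun_prop) _ _), hper, hTp, hTq]
      ring
    have h2 := swapD (f := fun q => V q ^ 4 * T' q.2 + 4 * V q ^ 3 * dT V q * T q.2)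
      (by fun_prop) hple
    simp only [h1] at h2
    rw [integral_const_mul] at h2
    have h3 : ∀ p, ∫ x in D, (V (x, p) ^ 4 * T' p + 4 * V (x, p) ^ 3 * dT V (x, p) * T p) =
        α p * T' p + T p * (4 * ∫ x in D, V (x, p) ^ 3 * dT V (x, p)) := by
      intro p
      rw [integral_add (intD (by fun_prop)) (intD (by fun_prop)), integral_mul_const,
        integral_mul_const]
      have : ∫ x in D, 4 * V (x, p) ^ 3 * dT V (x, p) =
          4 * ∫ x in D, V (x, p) ^ 3 * dT V (x, p) := by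
        rw [← integral_const_mul]
        congr 1
        ext x
        ring
      rw [this]
      ring
    simp only [h3] at h2
    have hc4 : Continuous fun p => ∫ x in D, V (x, p) ^ 3 * dT V (x, p) :=
      contD (f := fun p x => V (x, p) ^ 3 * dT V (x, p)) (by
        simp only [Function.uncurry_def]; fun_prop)
    rw [intervalIntegral.integral_add (Continuous.intervalIntegrable (by fun_prop) _ _)
      (Continuous.intervalIntegrable (by fun_prop) _ _)] at h2
    simp only [hα] at h2 ⊢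
    linarith
  -- pointwise estimates
  have hpt1 : ∀ p, 0 ≤ 8 / l ^ 2 * γ p + lam * (T p * (4 * ∫ x in D, V (x, p) ^ 3 * dT V (x, p))) +
      lam ^ 2 * l ^ 2 / 2 * (β p * T p ^ 2) := by
    intro p
    have h1 : 0 ≤ ∫ x in D, (8 / l ^ 2 * dT V (x, p) ^ 2 +
        lam * T p * 4 * (V (x, p) ^ 3 * dT V (x, p)) +
        lam ^ 2 * l ^ 2 / 2 * T p ^ 2 * V (x, p) ^ 6) := by
      refine integral_nonneg fun x => ?_
      have : 8 / l ^ 2 * dT V (x, p) ^ 2 + lam * T p * 4 * (V (x, p) ^ 3 * dT V (x, p)) +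
          lam ^ 2 * l ^ 2 / 2 * T p ^ 2 * V (x, p) ^ 6 =
          1 / 2 * (4 * dT V (x, p) / l + lam * l * T p * V (x, p) ^ 3) ^ 2 := by
        field_simp
        ring
      simp only [this]
      positivity
    rw [integral_add (intD (by fun_prop)) (intD (by fun_prop)), integral_add (intD (by fun_prop))
      (intD (by fun_prop)), integral_const_mul, integral_const_mul, integral_const_mul] at h1
    simp only [hγ, hβ]
    linarith
  have hpt2 : ∀ p, 2 * √(lam * m0 * C * N * (π / 2)) / N * (β p + β p * T p ^ 2) ≤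
      E p + lam * (α p * T' p) := by
    intro p
    have hNp : 0 < N := hN
    set S := √(lam * m0 * C * N * (π / 2)) with hS
    have hS2 : S ^ 2 = lam * m0 * C * N * (π / 2) := Real.sq_sqrt (by positivity)
    have hT'0 : 0 ≤ T' p := by
      have := hβ0 p
      simp only [hT']
      positivity
    have hX : 0 ≤ E p + lam * (α p * T' p) := by
      have := hE0 p
      have := hα0 p
      positivity
    refine abs_le_of_sq_le_sq' ?_ hX |>.2
    have h1 : C * β p ≤ E p * α p := hdisc p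
    have h2 : 4 * (lam * T' p * (C * β p)) ≤ (E p + lam * (α p * T' p)) ^ 2 := by
      have h3 : lam * T' p * (C * β p) ≤ lam * T' p * (E p * α p) :=
        mul_le_mul_of_nonneg_left h1 (by positivity)
      nlinarith [sq_nonneg (E p - lam * (α p * T' p))]
    refine le_trans (le_of_eq ?_) h2
    have h4 : (2 * S / N * (β p + β p * T p ^ 2)) ^ 2 =
        4 * S ^ 2 / N ^ 2 * (β p + β p * T p ^ 2) ^ 2 := by ring
    rw [h4, hS2]
    simp only [hT']
    field_simp
  -- integrate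
  have hc4 : Continuous fun p => ∫ x in D, V (x, p) ^ 3 * dT V (x, p) :=
    contD (f := fun p x => V (x, p) ^ 3 * dT V (x, p)) (by
      simp only [Function.uncurry_def]; fun_prop)
  have hI1 : ∫ p in p0..(p0 + 2 * π), 2 * √(lam * m0 * C * N * (π / 2)) / N *
      (β p + β p * T p ^ 2) ≤ ∫ p in p0..(p0 + 2 * π), (E p + lam * (α p * T' p)) :=
    intervalIntegral.integral_mono_on hple (Continuous.intervalIntegrable
      (by fun_prop) _ _) (Continuous.intervalIntegrable (by fun_prop) _ _) fun p _ => hpt2 p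
  have hI2 : 0 ≤ ∫ p in p0..(p0 + 2 * π), (8 / l ^ 2 * γ p +
      lam * (T p * (4 * ∫ x in D, V (x, p) ^ 3 * dT V (x, p))) +
      lam ^ 2 * l ^ 2 / 2 * (β p * T p ^ 2)) :=
    intervalIntegral.integral_nonneg hple fun p _ => hpt1 p
  have hG : ∫ p in p0..(p0 + 2 * π), (E p + 8 / l ^ 2 * γ p) =
      ∫ p in (-π)..π, (E p + 8 / l ^ 2 * γ p) := hshiftI _ perG
  have hβs : ∫ p in p0..(p0 + 2 * π), β p = N := hshiftI β perβ
  change _ ≤ ∫ p in (-π)..π, (E p + 8 / l ^ 2 * γ p)
  rw [← hG]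
  rw [intervalIntegral.integral_const_mul,
    intervalIntegral.integral_add (Continuous.intervalIntegrable (by fun_prop) _ _)
      (Continuous.intervalIntegrable (by fun_prop) _ _), hβs, hTm,
    intervalIntegral.integral_add (Continuous.intervalIntegrable (by fun_prop) _ _)
      (Continuous.intervalIntegrable (by fun_prop) _ _), intervalIntegral.integral_const_mul,
    hibp] at hI1
  rw [intervalIntegral.integral_add (Continuous.intervalIntegrable (by fun_prop) _ _)
      (Continuous.intervalIntegrable (by fun_prop) _ _),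
    intervalIntegral.integral_add (Continuous.intervalIntegrable (by fun_prop) _ _)
      (Continuous.intervalIntegrable (by fun_prop) _ _), intervalIntegral.integral_const_mul,
    intervalIntegral.integral_const_mul, intervalIntegral.integral_const_mul, hTm] at hI2
  rw [intervalIntegral.integral_add (Continuous.intervalIntegrable (by fun_prop) _ _)
      (Continuous.intervalIntegrable (by fun_prop) _ _), intervalIntegral.integral_const_mul]
  have hNp : 0 < N := hN
  have e1 : 2 * √(lam * m0 * C * N * (π / 2)) / N * (N + N * m1) =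
      2 * √(lam * m0 * C * N * (π / 2)) * (1 + m1) := by
    field_simp
  rw [e1] at hI1
  have e2 : 2 * R * lam * α p0 ≤
      2 * R * lam * ((2 + 2 * π ^ 2) / (6 * π) * N ^ (2 / 3 : ℝ)) :=
    mul_le_mul_of_nonneg_left hαcut (by positivity)
  linarith

/-- The inequality on the disc implies the inequality on the disc times a long circle. -/
theorem cyl_of_disc {C : ℝ} (hC : 0 < C)
    (hdisc : ∀ w : ℝ × ℝ → ℝ, ContDiff ℝ 1 w → (∀ x, 0 ≤ w x) →
      C * (∫ x in D, w x ^ 6) ≤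
        (8 * (∫ x in D, ((fderiv ℝ w x (1, 0)) ^ 2 + (fderiv ℝ w x (0, 1)) ^ 2)) +
          2 * ∫ th in (-π)..π, w (cos th, sin th) ^ 2) * ∫ x in D, w x ^ 4) :
    CylIneq (3 / 2 * (2 * π * C) ^ (2 / 3 : ℝ)) := by
  have hpi := pi_pos
  have hpile : -π ≤ π := by linarith
  intro ε hε
  set A : ℝ := (2 * π * C) ^ (1 / 3 : ℝ) with hA
  have hApos : 0 < A := Real.rpow_pos_of_pos (by positivity) _
  have hA2 : (2 * π * C) ^ (2 / 3 : ℝ) = A ^ 2 := by
    rw [hA, ← Real.rpow_natCast, ← Real.rpow_mul (by positivity)]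
    norm_num
  have hA3 : A ^ 3 = 2 * π * C := by
    rw [hA, ← Real.rpow_natCast, ← Real.rpow_mul (by positivity)]
    norm_num
  set δ : ℝ := min (1 / 2) (ε / (5 * A ^ 2)) with hδdef
  have hδ : 0 < δ := lt_min (by norm_num) (by positivity)
  have hδ1 : δ ≤ 1 / 2 := min_le_left _ _
  have hδ2 : 5 * A ^ 2 * δ ≤ ε := by
    have h := min_le_right (1 / 2) (ε / (5 * A ^ 2))
    rw [← hδdef, le_div_iff₀ (by positivity)] at h
    linarith
  obtain ⟨R, m0, m1, hR, hm0, hm0l, hm0u, hm1, htr⟩ :=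
    CT96.isTarget2.exists_transport hδ
  rw [abs_le] at hm1
  set κ : ℝ := (2 + 2 * π ^ 2) / (6 * π) with hκ
  have hκpos : 0 < κ := by positivity
  have hlim : Tendsto (fun l : ℝ => 2 * R * A * κ * l ^ (-(2 / 3) : ℝ)) atTop
      (𝓝 (2 * R * A * κ * 0)) :=
    (tendsto_rpow_neg_atTop (by norm_num : (0 : ℝ) < 2 / 3)).const_mul _
  rw [mul_zero] at hlim
  have hev := (hlim.eventually (gt_mem_nhds (by linarith : 0 < ε / 2))).and
    (eventually_gt_atTop (0 : ℝ))
  obtain ⟨l0, hl0⟩ := eventually_atTop.1 hev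
  refine ⟨l0, fun l hl U hU hUper hU0 => ?_⟩
  obtain ⟨hsmall, hlpos⟩ := hl0 l hl
  set csa : (ℝ × ℝ) × ℝ →L[ℝ] ℝ × ℝ × ℝ :=
    ((ContinuousLinearMap.fst ℝ ℝ ℝ).comp (ContinuousLinearMap.fst ℝ (ℝ × ℝ) ℝ)).prod
      (((ContinuousLinearMap.snd ℝ ℝ ℝ).comp (ContinuousLinearMap.fst ℝ (ℝ × ℝ) ℝ)).prod
        (ContinuousLinearMap.snd ℝ (ℝ × ℝ) ℝ)) with hcsa
  set V : (ℝ × ℝ) × ℝ → ℝ := fun q => U (q.1.1, q.1.2, q.2) with hV
  have hVs : ContDiff ℝ 1 V := hU.comp csa.contDiff
  have hVd : Differentiable ℝ V := hVs.differentiable (by norm_num)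
  have eA : ∀ (x : ℝ × ℝ) p, fderiv ℝ U (x.1, x.2, p) (1, 0, 0) = dA V (x, p) := fun x p =>
    fderiv_asc hVd (x.1, x.2, p) (1, 0, 0)
  have eB : ∀ (x : ℝ × ℝ) p, fderiv ℝ U (x.1, x.2, p) (0, 1, 0) = dB V (x, p) := fun x p =>
    fderiv_asc hVd (x.1, x.2, p) (0, 1, 0)
  have eT : ∀ (x : ℝ × ℝ) p, fderiv ℝ U (x.1, x.2, p) (0, 0, 1) = dT V (x, p) := fun x p =>
    fderiv_asc hVd (x.1, x.2, p) (0, 0, 1)
  simp only [eA, eB, eT]
  change (3 / 2 * (2 * π * C) ^ (2 / 3 : ℝ) - ε) * l ^ (-(2 / 3) : ℝ) *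
      (∫ p in (-π)..π, ∫ x in D, V (x, p) ^ 6) ^ (1 / 3 : ℝ) ≤
    ∫ p in (-π)..π, ((8 * (∫ x in D, (dA V (x, p) ^ 2 + dB V (x, p) ^ 2)) +
        2 * ∫ th in (-π)..π, V ((cos th, sin th), p) ^ 2) +
        8 / l ^ 2 * ∫ x in D, dT V (x, p) ^ 2)
  have hVper : ∀ x p, V (x, p + 2 * π) = V (x, p) := fun x p => hUper x.1 x.2 p
  have hV0 : ∀ q, 0 ≤ V q := fun q => hU0 _
  -- the disc inequality on slices
  have hdisc' : ∀ p : ℝ, C * (∫ x in D, V (x, p) ^ 6) ≤
      (8 * (∫ x in D, (dA V (x, p) ^ 2 + dB V (x, p) ^ 2)) +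
        2 * ∫ th in (-π)..π, V ((cos th, sin th), p) ^ 2) * ∫ x in D, V (x, p) ^ 4 := by
    intro p
    have hins : ContDiff ℝ 1 (fun x : ℝ × ℝ => (x, p)) := by fun_prop
    have h := hdisc (fun x => V (x, p)) (hVs.comp hins) (fun x => hV0 _)
    have hf : ∀ x v : ℝ × ℝ, fderiv ℝ (fun x => V (x, p)) x v = fderiv ℝ V (x, p) (v, 0) := by
      intro x v
      have h1 : HasFDerivAt (fun x : ℝ × ℝ => (x, p))
          ((ContinuousLinearMap.id ℝ (ℝ × ℝ)).prod (0 : ℝ × ℝ →L[ℝ] ℝ)) x :=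
        (hasFDerivAt_id x).prodMk (hasFDerivAt_const p x)
      have h2 := (hVd (x, p)).hasFDerivAt.comp x h1
      have h3 : fderiv ℝ (fun x => V (x, p)) x = (fderiv ℝ V (x, p)).comp
          ((ContinuousLinearMap.id ℝ (ℝ × ℝ)).prod (0 : ℝ × ℝ →L[ℝ] ℝ)) := h2.fderiv
      rw [h3]
      rfl
    simp only [hf] at h
    exact h
  have hN0 : 0 ≤ ∫ p in (-π)..π, ∫ x in D, V (x, p) ^ 6 :=
    intervalIntegral.integral_nonneg hpile fun p _ => integral_nonneg fun x => by
      have := hV0 (x, p)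
      positivity
  rcases hN0.eq_or_lt with hN | hN
  · rw [← hN, Real.zero_rpow (by norm_num), mul_zero]
    refine intervalIntegral.integral_nonneg hpile fun p _ => ?_
    have i1 : 0 ≤ ∫ x in D, (dA V (x, p) ^ 2 + dB V (x, p) ^ 2) :=
      integral_nonneg fun x => by positivity
    have i2 : 0 ≤ ∫ th in (-π)..π, V ((cos th, sin th), p) ^ 2 :=
      intervalIntegral.integral_nonneg hpile fun x _ => by positivity
    have i3 : 0 ≤ ∫ x in D, dT V (x, p) ^ 2 := integral_nonneg fun x => by positivity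
    positivity
  set a : ℝ := l ^ (-(2 / 3) : ℝ) with ha
  have hapos : 0 < a := Real.rpow_pos_of_pos hlpos _
  have hal : a ^ 3 * l ^ 2 = 1 := by
    rw [ha, ← Real.rpow_natCast, ← Real.rpow_mul hlpos.le, ← Real.rpow_natCast l,
      ← Real.rpow_add hlpos]
    norm_num
  set N : ℝ := ∫ p in (-π)..π, ∫ x in D, V (x, p) ^ 6 with hNdef
  set n : ℝ := N ^ (1 / 3 : ℝ) with hn
  have hnpos : 0 < n := Real.rpow_pos_of_pos hN _
  have hn2 : N ^ (2 / 3 : ℝ) = n ^ 2 := by
    rw [hn, ← Real.rpow_natCast, ← Real.rpow_mul hN.le]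
    norm_num
  have hn3 : N = n ^ 3 := by
    rw [hn, ← Real.rpow_natCast, ← Real.rpow_mul hN.le]
    norm_num
  have hcore := cyl_core hVs hVper hV0 hC hdisc' (l := l) (lam := A * a ^ 2 / n) (R := R)
    (m0 := m0) (m1 := m1) hlpos (by positivity) hR hm0 hN htr
  refine le_trans ?_ hcore
  rw [← hNdef, hn2]
  have hsq : √(A * a ^ 2 / n * m0 * C * N * (π / 2)) = A ^ 2 * a * n * √m0 / 2 := by
    rw [Real.sqrt_eq_iff_mul_self_eq (by positivity) (by positivity)]
    have h5 : A ^ 2 * a * n * √m0 / 2 * (A ^ 2 * a * n * √m0 / 2) =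
        A * A ^ 3 * a ^ 2 * n ^ 2 * (√m0 ^ 2) / 4 := by ring
    rw [h5, Real.sq_sqrt hm0.le, hA3, hn3]
    field_simp
    ring
  rw [hsq]
  have h6 : (A * a ^ 2 / n) ^ 2 * l ^ 2 / 2 * N * m1 = a * n * (A ^ 2 * m1 / 2) := by
    rw [hn3]
    have : (A * a ^ 2 / n) ^ 2 * l ^ 2 / 2 * n ^ 3 * m1 =
      (a ^ 3 * l ^ 2) * (a * n * (A ^ 2 * m1 / 2)) := by
      field_simp
    rw [this, hal, one_mul]
  rw [h6, hA2]
  have h7 : 2 * R * (A * a ^ 2 / n) * ((2 + 2 * π ^ 2) / (6 * π) * n ^ 2) =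
      a * n * (2 * R * A * κ * a) := by
    rw [← hκ]
    field_simp
  rw [h7]
  have h8 : 1 - δ ≤ √m0 := by
    refine hm0l.trans ?_
    rw [Real.le_sqrt' hm0]
    calc m0 ^ 2 = m0 * m0 := sq m0
      _ ≤ 1 * m0 := mul_le_mul_of_nonneg_right hm0u hm0.le
      _ = m0 := one_mul m0
  have h9 : (1 - δ) * (1 + m1) ≤ √m0 * (1 + m1) :=
    mul_le_mul_of_nonneg_right h8 (by linarith)
  have h10 : 3 / 2 - 5 / 2 * δ ≤ √m0 * (1 + m1) - m1 / 2 := by
    have k1 : 0 ≤ (1 / 2 - δ) * (m1 - (1 - δ)) :=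
      mul_nonneg (by linarith) (by linarith)
    have k2 : (1 - δ) * (1 + m1) - m1 / 2 =
        3 / 2 - 5 / 2 * δ + δ ^ 2 + (1 / 2 - δ) * (m1 - (1 - δ)) := by ring
    have k3 := sq_nonneg δ
    linarith
  have h11 : A ^ 2 * (3 / 2 - 5 / 2 * δ) ≤ A ^ 2 * (√m0 * (1 + m1) - m1 / 2) :=
    mul_le_mul_of_nonneg_left h10 (by positivity)
  have h12 : 3 / 2 * A ^ 2 - ε ≤ A ^ 2 * (√m0 * (1 + m1) - m1 / 2) - 2 * R * A * κ * a := by
    linarith
  have h13 := mul_le_mul_of_nonneg_left h12 (mul_pos hapos hnpos).le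
  linarith

/-- The value of the constant for the inequality on the disc with constant `8 π c`. -/
lemma const_eq {c : ℝ} (hc : 0 ≤ c) :
    3 / 2 * (2 * π * (8 * π * c)) ^ (2 / 3 : ℝ) = 6 * (2 * π ^ 2 * c) ^ (2 / 3 : ℝ) := by
  have h1 : 2 * π * (8 * π * c) = 8 * (2 * π ^ 2 * c) := by ring
  have h2 : (8 : ℝ) ^ (2 / 3 : ℝ) = 4 := by
    rw [show (8 : ℝ) = 2 ^ (3 : ℝ) by norm_num, ← Real.rpow_mul (by norm_num)]
    norm_num
  rw [h1, Real.mul_rpow (by norm_num) (by positivity), h2]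
  ring

end Pool.Agent.CT
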