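import Pool.Agent.CT.Numeric
import Pool.Agent.CT9.Cyl
import Pool.Agent.CT96.DiscIneq

/-!
# The inequality on the disc times a long circle, and the main theorem
-/

namespace Pool.Agent.CT

open MeasureTheory Metric Set Filter Topology Real
open scoped ContDiff

/-- The inequality on the disc times a long circle, with the constant `Kc`. -/
theorem cylIneq_Kc : CylIneq Kc := by
  have h := cyl_of_disc (C := 8 * π * (839 / 2000)) (by have := pi_pos; positivity)
    CT96.disc_ineq
  rw [const_eq (by norm_num)] at h
  exact h

/-- There is a smooth solid torus in `ℝ³` whose quotient exceeds that of the region bounded by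
the stereographic image of the Clifford torus. -/
theorem main : ∃ Ω : Set E3, IsSmoothBoundedDomain Ω ∧ IsSolidTorus (closure Ω) ∧
    yamabeQ cliffordRegion < yamabeQ Ω :=
  main_of_cylK cylIneq_Kc

end Pool.Agent.CT
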